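import Pool.Agent.Run7.h371.FJ.Gc

/-!
# Groups acting on trees with virtually cyclic edge groups and the Farrell-Jones conjecture

`C` is any class of groups with the closure properties `ClosedE C` which contains the metabelian groups
and satisfies `AcylR C`, the fibred form of the closure property for acylindrical actions on trees. All
this is known for the class of the groups whose wreath products with finite groups satisfy the K- and
L-theoretic Farrell-Jones conjecture with coefficients: metabelian groups are due to Wegner; Knopf
proves that a finitely generated group `Q` with an acylindrical action on a tree satisfies the
conjecture relative to the family of the virtually cyclic groups and the subgroups of the vertex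
stabilizers, and `AcylR` follows by pulling this back along a surjection `G → Q` and by transitivity.

Let the group `G` act on a tree `T` with virtually cyclic (possibly finite) edge stabilizers and with
vertex stabilizers in `C`. Neither `G` nor the vertex groups need be finitely generated or torsion-free,
the quotient need not be finite, and nothing is assumed about the position of the edge groups in the
vertex groups. The theorem says that `G` is in `C` if every element `x` of infinite order of an edge
stabilizer satisfies one of the following conditions, where `v` is any end of the edge.

* (B) `x` is balanced: if `g x^m g⁻¹ = x^n` with `m ≠ 0` then `|m| = |n|` (`Bl`).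
* (U) The edge groups which contain a nontrivial power of `x` are torsion-free, and the elements which
  have a nontrivial power in common with `x` have unique roots in the vertex groups: if `y` and `z` are
  in the same vertex group, `y^a = x^b` with `a, b ≠ 0` and `y^m = z^m` with `m ≠ 0`, then `y = z`
  (`Ur`).
* (S) The edge groups which contain a nontrivial power of `x` are torsion-free, and there is a subgroup
  `M` of the vertex group `G_v`, normalized by the group `K` of the elements of `G_v` which
  commensurate `⟨x⟩`, such that `M` contains the stabilizers of the edges at `v` which contain a
  nontrivial power of `x`, every element of `M` conjugates some nontrivial power of `x` to itself or to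
  its inverse, no nontrivial power of `x` is in `[M, M]`, and either all elements of `K` conjugate
  nontrivial powers of `x` to themselves or their inverses, or `M` is the kernel of a homomorphism
  from `K` to a group in `C` (`Gm`; this is formulated for all subgroups of `K`, which is equivalent).

Special cases, which are also part of the statement below.

* All elements of infinite order of the edge groups are balanced. So a group with vertex groups in `C`
  and virtually cyclic edge groups is in `C` unless it contains elements `g, x`, `x` of infinite order,
  with `g x^m g⁻¹ = x^n` and `0 ≠ |m| ≠ |n|`.
* The edge groups are torsion-free, and the elements of infinite order of the vertex groups have unique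
  roots there. Torsion-free groups with unique roots are the torsion-free hyperbolic groups, the
  torsion-free nilpotent groups, the bi-orderable groups (so right-angled Artin groups and their
  subgroups, and pure braid groups) and the pure subgroups of mapping class groups (Bonatti, Paris).
  The inclusions of the edge groups are arbitrary, there is no restriction on the modular
  homomorphisms.
* The edge groups are torsion-free, and for each edge at `v` and each `x ≠ 1` in its stabilizer: (i) `x`
  is not in all terms of the rational derived series of the group of the elements of `G_v` which commute
  with nontrivial powers of `x` (the rational derived series of `B` is `B_0 = B` and `B_{n+1}` is the set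
  of the `b` in `B_n` with `b^m` in `[B_n, B_n]` for some `m ≠ 0`); or (ii) `x` is balanced in `G_v`, and
  no nontrivial power of `x` is in the commutator subgroup of the group generated by the elements of
  `G_v` which have a nontrivial power in common with `x`. Condition (i) holds if `G_v` is residually
  torsion-free solvable or, more generally, residually poly-(torsion-free abelian), and (ii) holds if
  `G_v` is a CAT(0) group.

The cases known before, as far as I know: graphs of virtually cyclic groups (Wu), graphs of abelian
groups (Gandini, Meinert, Rüping), acylindrical actions (Knopf), several classes of amalgams of
Roushon, and, in the starting files of this repository, edge groups which meet the commutator subgroup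
of their virtual centralizer in the vertex group trivially (`MP_b6f35e_al.IsolatedEdgeGroups`, which is
condition (i) for the first term `B_1`), abelian edge groups with vertex groups in a product of free
groups, and groups in which the vertex stabilizers are commensurable. The difficulty of the general case
is that central edge elements can be products of commutators of elements of the vertex groups (as in
the fundamental groups of Seifert fibre spaces with nonzero Euler number, or Heisenberg groups) and can
at the same time be scaled by other elements of `G`.

Outline of the proof. By a limit argument one considers finitely generated groups `G` and the tree of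
the cylinders of the relation of commensurability of infinite edge groups; the action is acylindrical
and one is reduced to the stabilizers `H` of the cylinders, which commensurate a cyclic group `⟨t⟩` of an
edge. If `t` is balanced, then finitely many elements of `H` normalize a common subgroup `⟨t^m⟩`, and `H` is
a directed union of groups `H'` with a normal cyclic subgroup contained in all edge groups of a subtree
spanned by finitely many orbits, of bounded index. In the other cases one chooses an equivariant
compatible family `R_v` of subgroups of the vertex groups (for (U) the elements of `H_v` commensurable
to `t`, for (S) the groups `M`), and `N` the normal subgroup generated by them. Then `N` meets the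
vertex groups in `R_v`, `T/N` is a tree, and `G/N` acts on it with trivial edge stabilizers. The preimages
of the cyclic subgroups of `G/N` are in `C` because the commutator subgroup of `N` acts on `T` with
trivial edge groups. The stabilizers of the vertices of `T/N` in `G` are treated as follows: in the case
(U) they act on `T` and on a torsion-free abelian group of rank one which is a quotient of `N`; in the
case (S) they are balanced or extensions of a group in `C` by `N`. Now `AcylR` applies to `G → G/N`.
-/

set_option autoImplicit false

namespace Pool.Agent.Results.MP_98022b_gt.CyclicSplittings

open Subgroup
open scoped commutatorElement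
open Pool.Agent.Y110.FJ (ClosedE)
open Pool.Agent.N431.CE (Es)
open Run7.h371.FJ (AcylR Vcy Io Bl Tfx Ur Gm Rd Vz Rts)

theorem result (C : ∀ (G : Type) [Group G], Prop) (hC : ClosedE C)
    (hM : ∀ (G : Type) [Group G], derivedSeries G 2 = ⊥ → C G) (hA : AcylR C)
    {G V : Type} [Group G] [MulAction G V] (T : SimpleGraph V) (hT : T.IsTree)
    (hact : ∀ (g : G) (u v : V), T.Adj u v → T.Adj (g • u) (g • v))
    (hV : ∀ v : V, C ↥(MulAction.stabilizer G v))
    (hE : ∀ v u : V, T.Adj v u → Vcy (Es G v u)) :
    -- the general statement
    ((∀ v u : V, T.Adj v u → ∀ x ∈ Es G v u, Io x →
        Bl x ∨ (Tfx T x ∧ ((∀ w : V, Ur x (MulAction.stabilizer G w)) ∨ Gm C T v x))) → C G) ∧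
    -- balanced edge groups
    ((∀ v u : V, T.Adj v u → ∀ x ∈ Es G v u, Io x →
        ∀ (g : G) (m n : ℤ), m ≠ 0 → g * x ^ m * g⁻¹ = x ^ n → m.natAbs = n.natAbs) → C G) ∧
    -- torsion-free edge groups
    ((∀ v u : V, T.Adj v u → ∀ x ∈ Es G v u, ∀ m : ℕ, m ≠ 0 → x ^ m = 1 → x = 1) →
      -- vertex groups with unique roots
      ((∀ v : V, ∀ x ∈ MulAction.stabilizer G v, ∀ y ∈ MulAction.stabilizer G v, Io x →
        ∀ m : ℕ, m ≠ 0 → x ^ m = y ^ m → x = y) → C G) ∧
      -- edge groups which survive in the vertex groups
      ((∀ v u : V, T.Adj v u → ∀ x ∈ Es G v u, x ≠ 1 →
        (∃ n, x ∉ Rd (Vz x (MulAction.stabilizer G v)) n) ∨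
        ((∀ g : G, g • v = v → ∀ m n : ℤ, m ≠ 0 → g * x ^ m * g⁻¹ = x ^ n → m.natAbs = n.natAbs) ∧
          ∀ k : ℤ, k ≠ 0 → x ^ k ∉ ⁅Subgroup.closure (Rts x (MulAction.stabilizer G v)),
            Subgroup.closure (Rts x (MulAction.stabilizer G v))⁆)) → C G)) :=
  ⟨fun h => Run7.h371.FJ.cyclic2 hC hM hA hT hact hV hE h,
    fun h => Run7.h371.FJ.balanced hC hM hA hT hact hV hE h,
    fun htf => ⟨fun h => Run7.h371.FJ.unique_roots' hC hM hA hT hact hV hE htf h,
      fun h => Run7.h371.FJ.survive hC hM hA hT hact hV hE htf h⟩⟩

/-- vertex groups which are residually poly-(torsion-free abelian) -/
theorem residual (C : ∀ (G : Type) [Group G], Prop) (hC : ClosedE C)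
    (hM : ∀ (G : Type) [Group G], derivedSeries G 2 = ⊥ → C G) (hA : AcylR C)
    {G V : Type} [Group G] [MulAction G V] (T : SimpleGraph V) (hT : T.IsTree)
    (hact : ∀ (g : G) (u v : V), T.Adj u v → T.Adj (g • u) (g • v))
    (hV : ∀ v : V, C ↥(MulAction.stabilizer G v))
    (hE : ∀ v u : V, T.Adj v u → Vcy (Es G v u))
    (hR : ∀ v : V, ∀ x ∈ MulAction.stabilizer G v, x ≠ 1 → ∃ n, x ∉ Rd (MulAction.stabilizer G v) n) :
    C G :=
  Run7.h371.FJ.residual hC hM hA hT hact hV hE hR

end Pool.Agent.Results.MP_98022b_gt.CyclicSplittings
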