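import Pool.Agent.Run7.h909.T3.Grad

/-!
# Groups acting on triangle complexes of nonpositive curvature, and GL_3 of polynomial rings

`C` is any class of groups with the closure properties `ClosedE C` (it contains `ℤ`, is closed under
subgroups, finite products, free products, overgroups of finite index and directed colimits, and satisfies
the extension criterion) which contains the extensions of free groups of arbitrary rank by `ℤ` (`FbC C`)
and the groups acting properly and cocompactly on simply connected locally finite piecewise Euclidean
complexes of dimension two and of nonpositive curvature (`CatC C`). All this is known for the class of the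
groups whose wreath products with finite groups satisfy the K- and L-theoretic Farrell-Jones conjecture
with coefficients (Bartels, Farrell, Lück, Reich, Wegner; Bestvina, Fujiwara, Wigglesworth and Brück,
Kielak, Wu for the extensions of free groups). This class contains the solvable groups (Wegner).

A triangle complex (`Tri T F`) is given by a graph `T` and a set `F` of triangles (as closed edge paths, with
all shifts and inverses). The links of the vertices have girth at least six: no closed walks of
length three and five and only degenerate ones of length four. So the complex with equilateral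
triangles has nonpositive curvature. There is no finiteness condition. The complex is typed if
there is a function `τ` from the vertices to `ℤ / 3` with different values on adjacent vertices; for instance
the Bruhat-Tits buildings of type `A_2` over arbitrary fields with a discrete valuation.

* (1) Let `G` act on a typed simply connected triangle complex of this kind, where each element of `G`
  permutes the types. Suppose that for each vertex `x` there is a homomorphism from `G` to a group in `C`
  which is injective on the stabilizer of `x`. Then `G` is in `C`. The complex need not be locally finite,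
  there may be infinitely many orbits, and the stabilizers may be arbitrarily large.
* (2) If `N` is a normal subgroup of `G`, `G / N` is in `C`, `G` acts as in (1) and no nontrivial element
  of `N` fixes a vertex, then `G` is in `C`.
* (3) Let `R` be a commutative ring with a degree function (minus a discrete valuation) and `ρ` a homomorphism
  from `G` to `GL_3(R)` such that the determinants have degree zero. If for each `n` there is a
  homomorphism `f` from `G` to a group in `C` such that no nontrivial `g` with `f(g) = 1` has a matrix `ρ(g)`
  with entries of degrees at most `n`, then `G` is in `C`.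

Suppose also that `C` contains the solvable groups.

* (4) Let `A` be a commutative ring with a nonnegative degree function, `J` an ideal with `GL_3(A/J)` in `C`
  such that for each `n` some power of `J` contains no nonzero element of degree at most `n`. Then
  `GL_3(A)` is in `C`.
* (5) This applies to noetherian domains `A` over a field with a nonnegative degree function such that the
  elements of degrees at most `n` are in a subspace of finite dimension, and to all proper ideals `J`.
  If `A` is of finite type over an algebraic extension of a finite field, then `GL_3(A)` is in `C` without
  further hypothesis.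
* (6) If `A` is an integral domain then `GL_3(A)` is in `C` if and only if `GL_3(A[x_s : s ∈ σ])` is in `C`, for
  any set `σ` of variables. For instance (Bartels, Lück, Reich, Rüping for `GL_3(ℤ)`) `GL_3(ℤ[x_1, x_2, ...])`
  is in the Farrell-Jones class. More generally, if the domain `A` is graded by the natural numbers then
  `GL_3(A)` is in `C` if and only if `GL_3(A_0)` is in `C`. This applies to the coordinate rings of the affine
  cones over projective varieties and to the symbolic and ordinary Rees algebras of ideals of domains.
* (7) `GL_3(K[x_s : s ∈ σ])` is in `C` for all algebraic extensions `K` of finite fields and all sets `σ`.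

Known before: actions on one tree; arithmetic and `S`-arithmetic groups over global fields (Bartels, Lück,
Reich, Rüping), so the case of (7) with one variable and the case of (5) of curves with one place
at infinity over finite fields; proper cocompact actions on complexes of nonpositive curvature. In the
hand-ins there are actions on two trees (`TwoTrees`), on square complexes (`SquareComplexes`), the case of
`GL_2` (`DegreeRings`), and on the page `MP_59dd5b_al` the theorem of helper390 (`RankTwoBuildings`) on
actions on buildings of rank two and more general posets where the stabilizers are detected up to finite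
groups, with a different method: all groups `GL_3(A)` there are over rings with finitely many elements of
bounded degree in the finitely generated subrings; it contains (7) and the last part of (5). Here the
stabilizers are arbitrary large and infinite, and the complex is arbitrary.

Outline of the proof of (1). As for squares, by the extension criterion and by passing to the preimages
of cyclic subgroups one may assume that there is a homomorphism `κ` from `G` to `ℤ` which is
injective on the stabilizers (`Run7.h192.T3.t_MAIN2`), and `G` is a directed colimit of groups `H` which act on
simply connected complexes `X` of the same kind with finitely many orbits and with the same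
stabilizers. Divide each triangle into four (`Run7.h993.T3.t_SUB`). Let `K` be the normal subgroup of `H` generated
by the elements with a fixed point and with `κ` divisible by a suitable `n`. The links of `X / K` have again
girth at least six (`Run7.h352.T3.t_NICE`, `Run7.h983.T3.t_NUM2`), and `X / K` is simply connected
(`Run7.h417.T3.t_QUOT`). So `H / K` is in `C` by `CatC C`. It remains to find an invariant tree for `K`
(`t_TREE`). A covering of `X / K` built from flips of edge paths shows that it is a systolic complex: for the
distance from a vertex each horizontal edge has a common lower neighbour, and the lower neighbours of a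
vertex are pairwise adjacent (`t_PATH`). The parents of a vertex `x` of `X` are: a lower neighbour `y` such that
the edge `{x, y}` has a nontrivial stabilizer; if there is none, a horizontal neighbour of the previous type
with this property; if there is none, the lower neighbours of the preferred type. The second kind
of steps cannot be repeated forever, since horizontal edges of this kind form straight lines and the length of a
straight line on a sphere is at most the radius (`Lv.bound`). Each cocycle on the edges from the
vertices to their parents extends to all edges (`Ce_coc`), so these edges form a tree. The kernel of `κ`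
in `K` acts freely on it, so `H` is an extension of a subgroup of `(H / K) × ℤ` by a free group. For (3) - (7) the
complex is the building of `GL_3` (`Pool.Agent.Run7.h431.T3.t_BLD`, from lattices over the valuation ring, by
helpers 390 and 431).

This is joint work of helpers 909 (plan, covering, tree), 417 (quotients), 983, 352 (exponents), 781, 993
(subdivision), 192 (reduction), 431, 390 (building), 305, 950, 579 (linear groups).
-/

set_option autoImplicit false

namespace Pool.Agent.Results.MP_98022b_gt.TriangleComplexes

open Pool.Agent.Y110.FJ (ClosedE)
open Pool.Agent.R684.FP (FbC)
open Run7.h909.TD Run7.h909.GT Run7.h909.T3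

/-- some homomorphism to a group in `C` kills no nontrivial element of `S` -/
def Detected (C : ∀ (G : Type) [Group G], Prop) {G : Type} [Group G] (S : Set G) : Prop :=
  ∃ (P : Type) (_ : Group P) (f : G →* P), C P ∧ ∀ g ∈ S, f g = 1 → g = 1

/-- `G` acts on a typed simply connected triangle complex and permutes the types -/
structure Typed (G : Type) [Group G] {V : Type} [MulAction G V] (T : SimpleGraph V)
    (F : Set (ℤ → V)) (τ : V → ZMod 3) : Prop where
  tri : Tri T F
  sc : SC T F
  ac : Ac G T F
  tn : ∀ x y, T.Adj x y → τ x ≠ τ y
  pm : ∀ g : G, ∃ σ : ZMod 3 → ZMod 3, ∀ x : V, τ (g • x) = σ (τ x)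

/-- (1) actions on triangle complexes -/
def Actions (C : ∀ (G : Type) [Group G], Prop) : Prop :=
  ∀ (G V : Type) [Group G] [MulAction G V] (T : SimpleGraph V) (F : Set (ℤ → V))
    (τ : V → ZMod 3), Typed G T F τ → (∀ x : V, Detected C {g : G | g • x = x}) → C G

/-- (2) free actions of a normal subgroup -/
def Extensions (C : ∀ (G : Type) [Group G], Prop) : Prop :=
  ∀ (G V : Type) [Group G] [MulAction G V] (T : SimpleGraph V) (F : Set (ℤ → V))
    (τ : V → ZMod 3) (N : Subgroup G) [N.Normal], Typed G T F τ → C (G ⧸ N) →
    (∀ g ∈ N, ∀ x : V, g • x = x → g = 1) → C G

/-- (3) representations over rings with a degree function -/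
def Representations (C : ∀ (G : Type) [Group G], Prop) : Prop :=
  ∀ (R G : Type) [CommRing R] [Nontrivial R] [Group G] (deg : R → WithBot ℤ), IsDeg deg →
    ∀ ρ : G →* GL (Fin 3) R, (∀ g, deg (ρ g : Matrix (Fin 3) (Fin 3) R).det = 0) →
    (∀ n : ℕ, Detected C {g : G | ∀ i j, deg (ρ g i j) ≤ n}) → C G

/-- (4) rings with a degree function and an ideal -/
def Ideals (C : ∀ (G : Type) [Group G], Prop) : Prop :=
  ∀ (A : Type) [CommRing A] [Nontrivial A] (deg : A → WithBot ℤ), IsDeg deg →
    (∀ x, x ≠ 0 → 0 ≤ deg x) → ∀ J : Ideal A, C (GL (Fin 3) (A ⧸ J)) →
    (∀ n : ℕ, ∃ k : ℕ, ∀ x ∈ J ^ k, deg x ≤ n → x = 0) → C (GL (Fin 3) A)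

/-- (5) noetherian domains with a degree function -/
def Domains (C : ∀ (G : Type) [Group G], Prop) : Prop :=
  ∀ (K A : Type) [Field K] [CommRing A] [IsDomain A] [Algebra K A] (deg : A → WithBot ℤ),
    IsDeg deg → (∀ x, x ≠ 0 → 0 ≤ deg x) →
    (∀ n : ℕ, ∃ V : Submodule K A, FiniteDimensional K V ∧ ∀ x, deg x ≤ n → x ∈ V) →
    (IsNoetherianRing A → ∀ J : Ideal A, J ≠ ⊤ → C (GL (Fin 3) (A ⧸ J)) →
      C (GL (Fin 3) A)) ∧
    (Algebra.FiniteType K A → ∀ (p : ℕ) [Fact p.Prime] [Algebra (ZMod p) K],
      Algebra.IsAlgebraic (ZMod p) K → C (GL (Fin 3) A))

/-- (6) polynomial rings and graded domains -/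
def Graded (C : ∀ (G : Type) [Group G], Prop) : Prop :=
  (∀ (A σ : Type) [CommRing A] [IsDomain A],
    C (GL (Fin 3) A) ↔ C (GL (Fin 3) (MvPolynomial σ A))) ∧
  ∀ (A σ : Type) [CommRing A] [IsDomain A] [SetLike σ A] [AddSubgroupClass σ A] (𝒜 : ℕ → σ)
    [GradedRing 𝒜], C (GL (Fin 3) (𝒜 0)) ↔ C (GL (Fin 3) A)

/-- (7) polynomial rings over algebraic extensions of finite fields -/
def Fields (C : ∀ (G : Type) [Group G], Prop) : Prop :=
  ∀ (K σ : Type) [Field K] (p : ℕ) [Fact p.Prime] [Algebra (ZMod p) K]
    [Algebra.IsAlgebraic (ZMod p) K], C (GL (Fin 3) (MvPolynomial σ K))

theorem result (C : ∀ (G : Type) [Group G], Prop) (hC : ClosedE C) (hF : FbC C) (hcat : CatC C) :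
    Actions C ∧ Extensions C ∧ Representations C ∧
    ((∀ (S : Type) [Group S], Group.IsSolvable S → C S) →
      Ideals C ∧ Domains C ∧ Graded C ∧ Fields C) := by
  have hM := tri2 hC hF hcat
  refine ⟨?_, ?_, ?_, fun hsol => ⟨?_, ?_, ?_, ?_⟩⟩
  · intro G V _ _ T F τ h hd
    exact tri_perm hC hM h.tri h.sc h.ac h.pm h.tn hd
  · intro G V _ _ T F τ N _ h hN hf
    exact tri_perm hC hM h.tri h.sc h.ac h.pm h.tn fun x =>
      ⟨G ⧸ N, inferInstance, QuotientGroup.mk' N, hN, fun g hx hg =>
        hf g ((QuotientGroup.eq_one_iff g).1 hg) x hx⟩
  · intro R G _ _ _ deg h ρ hdet hd
    exact rep3 hM h ρ hdet hd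
  · intro A _ _ deg h h0 J hJ hn
    exact Run7.h579.T3.ring_mem3 hC hsol hM h h0 J hJ hn
  · intro K A _ _ _ _ deg h h0 hfd
    refine ⟨?_, ?_⟩
    · intro _ J hJ1 hJ
      exact fin_mem3 hC hsol hM K h h0 hfd J hJ1 hJ
    · intro _ p _ _ _
      exact affine_algfin_mem3 hC hsol hM K p h h0 hfd
  · refine ⟨fun A σ _ _ => ?_, fun A σ _ _ _ _ 𝒜 _ => ?_⟩
    · exact ⟨fun h => Run7.h579.T3.t_FINAL hC hsol hM σ h,
        fun h => hC.base.of_injective _ _ _
          (Run7.h950.T3.map_inj (n := Fin 3) _ (MvPolynomial.C_injective σ A)) h⟩
    · exact graded_iff3 hC hsol hM 𝒜
  · intro K σ _ p _ _ _
    exact Run7.h579.T3.t_FINAL hC hsol hM σ (algfin_mem3 hC K p)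

end Pool.Agent.Results.MP_98022b_gt.TriangleComplexes
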